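import Pool.Agent.H18.ER.Reg2

/-!
# MP_024b85_co: covers are impossible

If for each red `p` and each `θ` one of `p + ρ θ`, `p + ρ s θ` is red, then small distances are
forbidden, and the main lemma applies.
-/

set_option autoImplicit false

namespace Pool.Agent.H18.ER

open ComplexConjugate

variable {R : Set ℂ} {ρ ρ₁ ρ₂ : ℝ} {γ : ℂ}

/-- a square root with nonnegative real part -/
lemma exists_sqrt {s : ℂ} (hs : ‖s‖ = 1) : ∃ σ : ℂ, σ * σ = s ∧ ‖σ‖ = 1 ∧ 0 ≤ σ.re := by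
  obtain ⟨w, hw⟩ := IsAlgClosed.exists_pow_nat_eq s (n := 2) (by norm_num)
  have hw2 : w * w = s := by rw [← hw, sq]
  have hn : ‖w‖ = 1 := by
    have h1 : ‖w‖ * ‖w‖ = 1 := by rw [← norm_mul, hw2, hs]
    nlinarith [norm_nonneg w]
  rcases le_total 0 w.re with h | h
  · exact ⟨w, hw2, hn, h⟩
  · exact ⟨-w, by rw [neg_mul_neg, hw2], by rw [norm_neg, hn], by rw [Complex.neg_re]; linarith⟩

lemma sq_add_sq_unit {z : ℂ} (hz : ‖z‖ = 1) : z.re * z.re + z.im * z.im = 1 := by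
  have h := Complex.normSq_apply z
  rw [← h, Complex.normSq_eq_norm_sq, hz]
  norm_num

/-- a unit vector from `p` to `q` -/
lemma exists_dir {p q : ℂ} {r : ℝ} (h : ‖p - q‖ = r) : ∃ θ : ℂ, ‖θ‖ = 1 ∧ q - p = r * θ := by
  by_cases hr : r = 0
  · refine ⟨1, norm_one, ?_⟩
    rw [hr, norm_eq_zero, sub_eq_zero] at h
    rw [hr, h]
    simp
  · have hrC : (r : ℂ) ≠ 0 := by exact_mod_cast hr
    refine ⟨(q - p) / r, ?_, ?_⟩
    · rw [norm_div, norm_sub_rev, h, Complex.norm_real, Real.norm_of_nonneg (h ▸ norm_nonneg _),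
        div_self hr]
    · rw [mul_div_cancel₀ _ hrC]

/-- the descent of forbidden distances for a cover -/
lemma Cov.desc {s : ℂ} (hρ : 0 < ρ) (hs : ‖s‖ = 1) (hc : Cov R ρ s) {f : ℝ} (hF : Forb R f)
    (hf : ρ ≤ f) : ∃ f' : ℝ, 0 ≤ f' ∧ f ≤ f' + ρ ∧ f' ^ 2 ≤ f ^ 2 - ρ ^ 2 ∧ Forb R f' := by
  obtain ⟨σ, hσ, hσ1, hσ0⟩ := exists_sqrt hs
  have hxy := sq_add_sq_unit hσ1
  obtain ⟨x, hx⟩ : ∃ x, x = σ.re := ⟨_, rfl⟩
  obtain ⟨y, hy⟩ : ∃ y, y = σ.im := ⟨_, rfl⟩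
  rw [← hx, ← hy] at hxy
  rw [← hx] at hσ0
  have hx1 : x ≤ 1 := by nlinarith
  have hin : ρ ^ 2 * (x * x) ≤ f ^ 2 - ρ ^ 2 * (y * y) := by
    have : ρ ^ 2 ≤ f ^ 2 := pow_le_pow_left₀ hρ.le hf 2
    nlinarith
  obtain ⟨g, hg0, hg⟩ : ∃ g : ℝ, 0 ≤ g ∧ g * g = f ^ 2 - ρ ^ 2 * (y * y) :=
    ⟨Real.sqrt (f ^ 2 - ρ ^ 2 * (y * y)), Real.sqrt_nonneg _, Real.mul_self_sqrt (by
      have : 0 ≤ ρ ^ 2 * (x * x) := by positivity
      linarith)⟩
  have hρx : 0 ≤ ρ * x := by positivity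
  have hgx : ρ * x ≤ g := by
    by_contra hcon
    push Not at hcon
    nlinarith
  obtain ⟨f', hf'⟩ : ∃ f', f' = g - ρ * x := ⟨_, rfl⟩
  have hf0 : 0 ≤ f' := by rw [hf']; linarith
  have heq : (ρ * x + f') * (ρ * x + f') + (ρ * y) * (ρ * y) = f * f := by
    have : ρ * x + f' = g := by rw [hf']; ring
    rw [this, hg]; ring
  have hf00 : 0 ≤ f := hρ.le.trans hf
  have n1 : ‖(ρ : ℂ) * σ + f'‖ = f := by
    refine norm_eq_of_sq hf00 ?_
    simp only [Complex.add_re, Complex.add_im, Complex.re_ofReal_mul, Complex.im_ofReal_mul,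
      Complex.ofReal_re, Complex.ofReal_im, add_zero, ← hx, ← hy]
    exact heq
  have n2 : ‖(ρ : ℂ) * conj σ + f'‖ = f := by
    have h1 : (ρ : ℂ) * conj σ + f' = conj ((ρ : ℂ) * σ + f') := by
      rw [map_add, map_mul, Complex.conj_ofReal, Complex.conj_ofReal]
    rw [h1, Complex.norm_conj, n1]
  refine ⟨f', hf0, ?_, ?_, ?_⟩
  · by_contra hcon
    push Not at hcon
    have h1 : 0 ≤ f' * ρ * (1 - x) := by
      have : 0 ≤ 1 - x := by linarith
      positivity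
    nlinarith
  · have h1 : 0 ≤ f' * (ρ * x) := by positivity
    nlinarith
  · intro p hp q hq hpq
    obtain ⟨θ, hθ, hθ'⟩ := exists_dir (p := q) (q := p) (r := f') (by
      rw [norm_sub_rev]; exact hpq)
    -- `p = q + f' θ`
    have h1 := hc p hp (conj σ * θ) (by rw [norm_mul, norm_conj_eq hσ1, hθ, one_mul])
    have h2 : s * (conj σ * θ) = σ * θ := by
      have := mul_conj_unit hσ1
      rw [← hσ]
      linear_combination σ * θ * this
    rw [h2] at h1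
    rcases h1 with h1 | h1
    · refine hF _ h1 _ hq ?_
      have h3 : p + ρ * (conj σ * θ) - q = ((ρ : ℂ) * conj σ + f') * θ := by
        linear_combination hθ'
      rw [h3, norm_mul, hθ, mul_one, n2]
    · refine hF _ h1 _ hq ?_
      have h3 : p + ρ * (σ * θ) - q = ((ρ : ℂ) * σ + f') * θ := by
        linear_combination hθ'
      rw [h3, norm_mul, hθ, mul_one, n1]

/-- iteration of the descent -/
lemma Cov.iter {s : ℂ} (hρ : 0 < ρ) (hs : ‖s‖ = 1) (hc : Cov R ρ s) (n : ℕ) :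
    ∀ f : ℝ, Forb R f → ρ ≤ f → f ≤ 1 → f ^ 2 ≤ n * ρ ^ 2 →
      ∃ g : ℝ, 0 < g ∧ g < 2 * ρ ∧ g ≤ 1 ∧ Forb R g := by
  induction n with
  | zero =>
    intro f _ hf _ hn
    rw [Nat.cast_zero, zero_mul] at hn
    have : 0 < f ^ 2 := by
      have : 0 < f := by linarith
      positivity
    linarith
  | succ n ih =>
    intro f hF hf hf1 hn
    by_cases h : f < 2 * ρ
    · exact ⟨f, by linarith, h, hf1, hF⟩
    · push Not at h
      obtain ⟨f', h0, h1, h2, h3⟩ := hc.desc hρ hs hF hf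
      refine ih f' h3 (by linarith) ?_ ?_
      · nlinarith
      · push_cast at hn
        linarith

/-- covers are impossible -/
theorem Cov.false {s : ℂ} (hρ : 0 < ρ) (hs : ‖s‖ = 1) (hc : Cov R ρ s) (hU : Forb R 1)
    (hne : R.Nonempty) : False := by
  obtain ⟨g, hg0, hg2, hg1, hF⟩ : ∃ g : ℝ, 0 < g ∧ g < 2 * ρ ∧ g ≤ 1 ∧ Forb R g := by
    by_cases h : 1 < 2 * ρ
    · exact ⟨1, one_pos, h, le_rfl, hU⟩
    · push Not at h
      obtain ⟨n, hn⟩ := exists_nat_ge (1 / ρ ^ 2)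
      rw [div_le_iff₀ (by positivity)] at hn
      exact hc.iter hρ hs n 1 hU (by linarith) le_rfl (by rw [one_pow]; exact hn)
  obtain ⟨t, ht, ht1, -⟩ := chord (x := g / ρ) (by positivity) (by
    rw [div_le_iff₀ hρ]; exact hg2.le)
  have ht2 : ρ * ‖1 - t‖ = g := by rw [ht1]; field_simp
  have ho := hc.odd hs ht (hF.free hρ.le ht2)
  refine main_lemma hρ hU hne hs hc (by rw [norm_mul, ht, one_mul]) (ho.mul ht ho) ?_ ?_
  · intro h3
    have h4 : (1 - t) * (1 + t) = 0 := by linear_combination -h3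
    rcases mul_eq_zero.1 h4 with h5 | h5
    · rw [h5, norm_zero, mul_zero] at ht2
      exact hg0.ne ht2
    · have h6 : t = -1 := by linear_combination h5
      rw [h6] at ht2
      have h7 : ‖(1 : ℂ) - -1‖ = 2 := by
        rw [sub_neg_eq_add, one_add_one_eq_two]; norm_num
      rw [h7] at ht2
      linarith
  · have h3 : 1 - t * t = (1 - t) * (1 + t) := by ring
    have h4 : ‖1 + t‖ ≤ 2 := (norm_add_le _ _).trans (by rw [norm_one, ht]; norm_num)
    rw [h3, norm_mul, ← mul_assoc, ht2]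
    nlinarith [norm_nonneg (1 + t)]

end Pool.Agent.H18.ER
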