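import Mathlib

/-!
# MP_024b85_co: red sets in the plane without unit distances

`R` is a set of complex numbers (the red points). For a radius `ρ` and a number `t` of absolute
value one we consider the points `p + ρ θ` and `p + ρ t θ` on the circle of radius `ρ` with centre
`p ∈ R`, for all `θ` of absolute value one.
-/

set_option autoImplicit false

namespace Pool.Agent.H18.ER

open ComplexConjugate

/-- never both points are red -/
def Free (R : Set ℂ) (ρ : ℝ) (t : ℂ) : Prop :=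
  ∀ p ∈ R, ∀ θ : ℂ, ‖θ‖ = 1 → p + ρ * θ ∈ R → p + ρ * (t * θ) ∈ R → False

/-- exactly one of the points is red -/
def Odd (R : Set ℂ) (ρ : ℝ) (t : ℂ) : Prop :=
  ∀ p ∈ R, ∀ θ : ℂ, ‖θ‖ = 1 → (p + ρ * θ ∈ R ↔ p + ρ * (t * θ) ∉ R)

/-- both points are red, or none of them -/
def Even (R : Set ℂ) (ρ : ℝ) (g : ℂ) : Prop :=
  ∀ p ∈ R, ∀ θ : ℂ, ‖θ‖ = 1 → (p + ρ * θ ∈ R ↔ p + ρ * (g * θ) ∈ R)

/-- at least one of the points is red -/
def Cov (R : Set ℂ) (ρ : ℝ) (s : ℂ) : Prop :=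
  ∀ p ∈ R, ∀ θ : ℂ, ‖θ‖ = 1 → (p + ρ * θ ∈ R ∨ p + ρ * (s * θ) ∈ R)

/-- no two red points have the distance `f` -/
def Forb (R : Set ℂ) (f : ℝ) : Prop := ∀ p ∈ R, ∀ q ∈ R, ‖p - q‖ ≠ f

/-- the pair `(p, v)` with `p` and `p + ρ v` red can be translated by `ρ v a` -/
def Wk (R : Set ℂ) (ρ : ℝ) (a : ℂ) : Prop :=
  ∀ p ∈ R, ∀ v : ℂ, ‖v‖ = 1 → p + ρ * v ∈ R → p + ρ * (v * a) ∈ R ∧ p + ρ * (v * a) + ρ * v ∈ R

variable {R : Set ℂ} {ρ : ℝ}

lemma Cov.odd {s t : ℂ} (hs : ‖s‖ = 1) (ht : ‖t‖ = 1) (h : Cov R ρ s) (hf : Free R ρ t) :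
    Odd R ρ t := by
  intro p hp θ hθ
  constructor
  · exact fun h1 h2 => hf p hp θ hθ h1 h2
  · intro h1
    have h2 := (h p hp (t * θ) (by rw [norm_mul, ht, hθ, one_mul])).resolve_left h1
    by_contra h3
    have h4 := (h p hp θ hθ).resolve_left h3
    refine hf p hp (s * θ) (by rw [norm_mul, hs, hθ, one_mul]) h4 ?_
    have h5 : t * (s * θ) = s * (t * θ) := by ring
    rw [h5]
    exact h2

lemma Odd.mul {t t' : ℂ} (ht' : ‖t'‖ = 1) (h : Odd R ρ t) (h' : Odd R ρ t') :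
    Even R ρ (t * t') := by
  intro p hp θ hθ
  rw [h' p hp θ hθ, mul_assoc]
  have h1 := h p hp (t' * θ) (by rw [norm_mul, ht', hθ, one_mul])
  rw [h1]
  exact not_not

lemma Even.mul {g g' : ℂ} (hg' : ‖g'‖ = 1) (h : Even R ρ g) (h' : Even R ρ g') :
    Even R ρ (g * g') := by
  intro p hp θ hθ
  rw [h' p hp θ hθ, mul_assoc]
  exact h p hp (g' * θ) (by rw [norm_mul, hg', hθ, one_mul])

lemma Even.mul_odd {g t : ℂ} (ht : ‖t‖ = 1) (h : Even R ρ g) (h' : Odd R ρ t) :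
    Odd R ρ (g * t) := by
  intro p hp θ hθ
  rw [h' p hp θ hθ, mul_assoc]
  exact not_congr (h p hp (t * θ) (by rw [norm_mul, ht, hθ, one_mul]))

lemma even_one : Even R ρ 1 := by
  intro p _ θ _
  rw [one_mul]

lemma conj_mul_unit {g : ℂ} (hg : ‖g‖ = 1) : conj g * g = 1 := by
  rw [Complex.conj_mul', hg]; norm_num

lemma mul_conj_unit {g : ℂ} (hg : ‖g‖ = 1) : g * conj g = 1 := by
  rw [mul_comm]; exact conj_mul_unit hg

lemma norm_conj_eq {g : ℂ} (hg : ‖g‖ = 1) : ‖conj g‖ = 1 := by rw [Complex.norm_conj, hg]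

lemma Even.conj {g : ℂ} (hg : ‖g‖ = 1) (h : Even R ρ g) : Even R ρ (conj g) := by
  intro p hp θ hθ
  have h1 := h p hp (conj g * θ) (by rw [norm_mul, norm_conj_eq hg, hθ, one_mul])
  have h2 : g * (conj g * θ) = θ := by rw [← mul_assoc, mul_conj_unit hg, one_mul]
  rw [h2] at h1
  exact h1.symm

lemma Forb.free {f : ℝ} {t : ℂ} (hρ : 0 ≤ ρ) (h : Forb R f) (ht : ρ * ‖1 - t‖ = f) :
    Free R ρ t := by
  intro p hp θ hθ h1 h2
  refine h _ h1 _ h2 ?_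
  have h3 : p + ρ * θ - (p + ρ * (t * θ)) = ρ * ((1 - t) * θ) := by ring
  rw [h3, norm_mul, norm_mul, hθ, mul_one, Complex.norm_real, Real.norm_of_nonneg hρ, ht]

lemma Wk.zero : Wk R ρ 0 := by
  intro p hp v _ h
  simp only [mul_zero, add_zero]
  exact ⟨hp, h⟩

lemma Wk.add {a b : ℂ} (ha : Wk R ρ a) (hb : Wk R ρ b) : Wk R ρ (a + b) := by
  intro p hp v hv h
  obtain ⟨h1, h2⟩ := ha p hp v hv h
  obtain ⟨h3, h4⟩ := hb _ h1 v hv h2
  have h5 : p + ρ * (v * (a + b)) = p + ρ * (v * a) + ρ * (v * b) := by ring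
  rw [h5]
  exact ⟨h3, h4⟩

lemma Wk.nsmul {a : ℂ} (ha : Wk R ρ a) (n : ℕ) : Wk R ρ (n * a) := by
  induction n with
  | zero => rw [Nat.cast_zero, zero_mul]; exact Wk.zero
  | succ n ih =>
    have h : ((n + 1 : ℕ) : ℂ) * a = n * a + a := by push_cast; ring
    rw [h]
    exact ih.add ha

/-- the step of the walk -/
lemma Even.wk {g h : ℂ} (hg : ‖g‖ = 1) (hh : ‖h‖ = 1) (eg : Even R ρ g) (eh : Even R ρ h) :
    Wk R ρ (g - h) := by
  intro p hp v hv hpv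
  have h1 : p + ρ * (g * v) ∈ R := (eg p hp v hv).1 hpv
  -- the pair `(q, -g v)`
  have h2 : p + ρ * (g * v) + ρ * (-(g * v)) ∈ R := by
    have : p + ρ * (g * v) + ρ * (-(g * v)) = p := by ring
    rw [this]
    exact hp
  have hgv : ‖-(g * v)‖ = 1 := by rw [norm_neg, norm_mul, hg, hv, one_mul]
  have e1 : Even R ρ (h * conj g) := eh.mul (norm_conj_eq hg) (eg.conj hg)
  have h3 := (e1 _ h1 _ hgv).1 h2
  have h4 : p + ρ * (g * v) + ρ * (h * conj g * -(g * v)) = p + ρ * (v * (g - h)) := by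
    have : h * conj g * -(g * v) = -(conj g * g) * (h * v) := by ring
    rw [this, conj_mul_unit hg]
    ring
  rw [h4] at h3
  refine ⟨h3, ?_⟩
  have h5 : p + ρ * (v * (g - h)) + ρ * (h * v) ∈ R := by
    have : p + ρ * (v * (g - h)) + ρ * (h * v) = p + ρ * (g * v) := by ring
    rw [this]
    exact h1
  have hhv : ‖h * v‖ = 1 := by rw [norm_mul, hh, hv, one_mul]
  have h6 := ((eh.conj hh) _ h3 _ hhv).1 h5
  have h7 : conj h * (h * v) = v := by rw [← mul_assoc, conj_mul_unit hh, one_mul]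
  rw [h7] at h6
  exact h6

/-- if `-1` is even -/
lemma Even.wk' {g : ℂ} (hg : ‖g‖ = 1) (hm : Even R ρ (-1)) (eg : Even R ρ g) : Wk R ρ g := by
  intro p hp v hv hpv
  have h1 : p + ρ * (g * v) ∈ R := (eg p hp v hv).1 hpv
  have h0 : p + ρ * (v * g) = p + ρ * (g * v) := by ring
  rw [h0]
  refine ⟨h1, ?_⟩
  have h2 : p + ρ * (g * v) + ρ * (-(g * v)) ∈ R := by
    have : p + ρ * (g * v) + ρ * (-(g * v)) = p := by ring
    rw [this]
    exact hp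
  have hgv : ‖-(g * v)‖ = 1 := by rw [norm_neg, norm_mul, hg, hv, one_mul]
  have e1 : Even R ρ (-1 * conj g) := hm.mul (norm_conj_eq hg) (eg.conj hg)
  have h3 := (e1 _ h1 _ hgv).1 h2
  have h4 : -1 * conj g * -(g * v) = v := by
    have : -1 * conj g * -(g * v) = (conj g * g) * v := by ring
    rw [this, conj_mul_unit hg, one_mul]
  rw [h4] at h3
  exact h3

/-- a triangle with given sides -/
lemma tri {a b r : ℝ} (ha : 0 < a) (hb : 0 < b) (h1 : |a - b| ≤ r) (h2 : r ≤ a + b) :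
    ∃ w : ℂ, ‖w‖ = 1 ∧ ‖(a : ℂ) - w * b‖ = r ∧ ‖(a : ℂ) - conj w * b‖ = r := by
  have hr : 0 ≤ r := (abs_nonneg _).trans h1
  obtain ⟨x, hx⟩ : ∃ x, x = (a ^ 2 + b ^ 2 - r ^ 2) / (2 * a * b) := ⟨_, rfl⟩
  have hab : 0 < 2 * a * b := by positivity
  have hx' : x * (2 * a * b) = a ^ 2 + b ^ 2 - r ^ 2 := by
    rw [hx, div_mul_cancel₀ _ hab.ne']
  have hx1 : x ≤ 1 := by
    rw [hx, div_le_one hab]
    have : (a - b) ^ 2 ≤ r ^ 2 := by
      rw [← sq_abs (a - b)]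
      exact pow_le_pow_left₀ (abs_nonneg _) h1 2
    nlinarith
  have hx2 : -1 ≤ x := by
    rw [hx, le_div_iff₀ hab]
    nlinarith
  have hy : 0 ≤ 1 - x ^ 2 := by nlinarith
  obtain ⟨y, hy0, hy1⟩ : ∃ y : ℝ, 0 ≤ y ∧ y ^ 2 = 1 - x ^ 2 :=
    ⟨Real.sqrt (1 - x ^ 2), Real.sqrt_nonneg _, Real.sq_sqrt hy⟩
  have hn : ∀ z : ℂ, ∀ c : ℝ, 0 ≤ c → z.re ^ 2 + z.im ^ 2 = c ^ 2 → ‖z‖ = c := by
    intro z c hc hz
    rw [← Real.sqrt_sq hc, ← hz, Complex.norm_def, Complex.normSq_apply]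
    congr 1
    ring
  refine ⟨⟨x, y⟩, hn _ 1 zero_le_one ?_, hn _ r hr ?_, hn _ r hr ?_⟩
  · simp only
    nlinarith
  · simp only [Complex.sub_re, Complex.sub_im, Complex.mul_re, Complex.mul_im, Complex.ofReal_re,
      Complex.ofReal_im]
    nlinarith
  · simp only [Complex.sub_re, Complex.sub_im, Complex.mul_re, Complex.mul_im, Complex.ofReal_re,
      Complex.ofReal_im, Complex.conj_re, Complex.conj_im]
    nlinarith

/-- a unit with given distance to `1` -/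
lemma chord {x : ℝ} (h0 : 0 ≤ x) (h2 : x ≤ 2) : ∃ t : ℂ, ‖t‖ = 1 ∧ ‖1 - t‖ = x ∧
    ‖1 - conj t‖ = x := by
  obtain ⟨w, h1, h3, h4⟩ := tri (a := 1) (b := 1) (r := x) one_pos one_pos (by simpa using h0)
    (by linarith)
  refine ⟨w, h1, ?_, ?_⟩
  · simpa using h3
  · simpa using h4

lemma add_conj_of_chord {t : ℂ} {x : ℝ} (ht : ‖t‖ = 1) (h : ‖1 - t‖ = x) :
    t + conj t = 2 - (x : ℂ) ^ 2 := by
  have h1 : (1 - t) * conj (1 - t) = (x : ℂ) ^ 2 := by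
    rw [Complex.mul_conj', h]
  rw [map_sub, map_one] at h1
  have h2 := mul_conj_unit ht
  linear_combination h2 - h1

end Pool.Agent.H18.ER
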