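import Pool.Agent.H18.ER.CovF

/-!
# MP_024b85_co: two further points, all radii
-/

set_option autoImplicit false

namespace Pool.Agent.H18.ER

open ComplexConjugate

variable {R : Set ℂ} {ρ ρ₁ ρ₂ : ℝ} {γ : ℂ}

lemma Cfg.conj (h : Cfg R ρ₁ ρ₂ γ) : Cfg R ρ₁ ρ₂ (conj γ) := by
  refine ⟨norm_conj_eq h.unit, h.r2, ?_⟩
  rw [Complex.conj_conj]
  exact h.r1

/-- the descent of forbidden distances, large angle: the circumcentre -/
lemma Cfg.descX (h : Cfg R ρ₁ ρ₂ γ) (h0 : 0 < ρ₁) (h12 : ρ₁ ≤ ρ₂) {f : ℝ} (hF : Forb R f)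
    (hf : 2 * ρ₂ ≤ f) (hγ : γ.re ≤ 1 / 2) :
    ∃ f' : ℝ, 0 ≤ f' ∧ f ≤ f' + ρ₁ ∧ f' ^ 2 ≤ f ^ 2 - ρ₁ ^ 2 ∧ Forb R f' := by
  have hxy := sq_add_sq_unit h.unit
  obtain ⟨x, hx⟩ : ∃ x, x = γ.re := ⟨_, rfl⟩
  obtain ⟨y, hy⟩ : ∃ y, y = γ.im := ⟨_, rfl⟩
  rw [← hx, ← hy] at hxy
  rw [← hx] at hγ
  have hγe : γ = ⟨x, y⟩ := by rw [hx, hy]
  have h2 : 0 < ρ₂ := by linarith
  have hf0 : 0 < f := by linarith
  obtain ⟨V, hV⟩ : ∃ V, V = ρ₁ ^ 2 + ρ₂ ^ 2 - 2 * ρ₁ * ρ₂ * x := ⟨_, rfl⟩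
  have hV0 : 0 < V := by
    have h3 : 0 < ρ₁ * ρ₂ := mul_pos h0 h2
    rw [hV]
    nlinarith [sq_nonneg (ρ₁ - ρ₂)]
  have hVf : V ≤ f ^ 2 := by
    have h3 : 0 < ρ₁ * ρ₂ := mul_pos h0 h2
    have h4 : V ≤ (ρ₁ + ρ₂) ^ 2 := by rw [hV]; nlinarith
    have h5 : (ρ₁ + ρ₂) ^ 2 ≤ f ^ 2 := pow_le_pow_left₀ (by linarith) (by linarith) 2
    linarith
  obtain ⟨τ₀, hτ₀, hτ⟩ : ∃ τ₀ : ℝ, 0 ≤ τ₀ ∧ τ₀ * τ₀ = f ^ 2 / V - 1 / 4 :=
    ⟨Real.sqrt (f ^ 2 / V - 1 / 4), Real.sqrt_nonneg _, Real.mul_self_sqrt (by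
      have : 1 ≤ f ^ 2 / V := by rw [one_le_div₀ hV0]; exact hVf
      linarith)⟩
  have hτ3 : 3 / 4 ≤ τ₀ * τ₀ := by
    have : 1 ≤ f ^ 2 / V := by rw [one_le_div₀ hV0]; exact hVf
    rw [hτ]; linarith
  obtain ⟨τ, hττ, hτy⟩ : ∃ τ : ℝ, τ * τ = τ₀ * τ₀ ∧ 1 + x ≤ 2 * τ * y := by
    have key : ∀ z : ℝ, 0 ≤ z → z * z = y * y → 1 + x ≤ 2 * τ₀ * z := by
      intro z hz hzy
      by_contra hcon
      push Not at hcon
      have h3 : 0 ≤ 2 * τ₀ * z := by positivity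
      have h4 : (2 * τ₀ * z) * (2 * τ₀ * z) < (1 + x) * (1 + x) := by nlinarith
      have h5 : (2 * τ₀ * z) * (2 * τ₀ * z) = 4 * (τ₀ * τ₀) * (z * z) := by ring
      rw [h5, hzy] at h4
      have h6 : 3 * (y * y) ≤ 4 * (τ₀ * τ₀) * (y * y) :=
        mul_le_mul_of_nonneg_right (by linarith) (mul_self_nonneg y)
      have h7 : -1 ≤ x := by nlinarith
      nlinarith [mul_nonneg (by linarith : (0 : ℝ) ≤ 1 + x) (by linarith : (0 : ℝ) ≤ 1 - 2 * x)]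
    rcases le_total 0 y with h3 | h3
    · exact ⟨τ₀, rfl, key y h3 rfl⟩
    · refine ⟨-τ₀, by ring, ?_⟩
      have := key (-y) (by linarith) (by ring)
      linarith
  have hτV : τ * τ * V = f ^ 2 - V / 4 := by
    rw [hττ, hτ]; field_simp
  obtain ⟨X, hX⟩ : ∃ X : ℂ, X = ⟨(ρ₁ + ρ₂ * x) / 2 - τ * ρ₂ * y, ρ₂ * y / 2 + τ * (ρ₂ * x - ρ₁)⟩ :=
    ⟨_, rfl⟩
  have n1 : ‖X - ρ₁‖ = f := by
    refine norm_eq_of_sq hf0.le ?_
    rw [hX]
    simp only [Complex.sub_re, Complex.sub_im, Complex.ofReal_re, Complex.ofReal_im, sub_zero]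
    have h3 : f * f = (τ * τ + 1 / 4) * V := by linear_combination -hτV
    rw [h3, hV]
    linear_combination (ρ₂ ^ 2 * (τ * τ + 1 / 4)) * hxy
  have n2 : ‖X - ρ₂ * γ‖ = f := by
    refine norm_eq_of_sq hf0.le ?_
    rw [hX, hγe]
    simp only [Complex.sub_re, Complex.sub_im, Complex.re_ofReal_mul, Complex.im_ofReal_mul]
    have h3 : f * f = (τ * τ + 1 / 4) * V := by linear_combination -hτV
    rw [h3, hV]
    linear_combination (ρ₂ ^ 2 * (τ * τ + 1 / 4)) * hxy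
  refine ⟨‖X‖, norm_nonneg _, ?_, ?_, h.forb hF n1 n2⟩
  · have h3 := norm_sub_le X ρ₁
    rw [n1, Complex.norm_real, Real.norm_of_nonneg h0.le] at h3
    exact h3
  · have h3 : ‖X‖ ^ 2 = f ^ 2 + ρ₁ * ρ₂ * (x - 2 * τ * y) := by
      rw [← Complex.normSq_eq_norm_sq, Complex.normSq_apply, hX]
      simp only
      have h4 : f ^ 2 = (τ * τ + 1 / 4) * V := by linear_combination -hτV
      rw [h4, hV]
      linear_combination (ρ₂ ^ 2 * (τ * τ + 1 / 4)) * hxy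
    have h4 : ρ₁ * ρ₂ * (x - 2 * τ * y) ≤ ρ₁ * ρ₂ * (-1) :=
      mul_le_mul_of_nonneg_left (by linarith) (by positivity)
    rw [h3]
    nlinarith

/-- the descent of forbidden distances, small angle: a symmetric trapezium -/
lemma Cfg.descM (h : Cfg R ρ₁ ρ₂ γ) (h0 : 0 < ρ₁) (h12 : ρ₁ ≤ ρ₂) {f : ℝ} (hF : Forb R f)
    (hf : 2 * ρ₂ ≤ f) (hγ : 1 / 2 < γ.re) (hγi : 0 ≤ γ.im) :
    ∃ f' : ℝ, 0 ≤ f' ∧ f ≤ f' + ρ₁ ∧ f' ^ 2 ≤ f ^ 2 - ρ₁ ^ 2 ∧ Forb R f' := by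
  have hf0 : 0 < f := by linarith
  obtain ⟨α, hα⟩ : ∃ α, α = Complex.arg γ := ⟨_, rfl⟩
  have hγe : γ = ⟨Real.cos α, Real.sin α⟩ := by
    have h1 := Complex.norm_mul_exp_arg_mul_I γ
    rw [h.unit, Complex.ofReal_one, one_mul, ← hα] at h1
    rw [← h1]
    apply Complex.ext
    · rw [Complex.exp_ofReal_mul_I_re]
    · rw [Complex.exp_ofReal_mul_I_im]
  have hα0 : 0 ≤ α := by rw [hα]; exact Complex.arg_nonneg_iff.2 hγi
  have hαp : α ≤ Real.pi := by rw [hα]; exact Complex.arg_le_pi γ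
  have hcos : 1 / 2 < Real.cos α := by rw [hγe] at hγ; exact hγ
  have hsin : 0 ≤ Real.sin α := by rw [hγe] at hγi; exact hγi
  have hα2 : α ≤ Real.pi / 2 := by
    by_contra hcon
    push Not at hcon
    have := Real.cos_nonpos_of_pi_div_two_le_of_le hcon.le (by linarith)
    linarith
  -- the function for the intermediate value theorem
  obtain ⟨r, hr⟩ : ∃ r : ℝ → ℝ, r = fun ψ => ρ₁ * Real.cos ψ +
    Real.sqrt (f ^ 2 - ρ₁ ^ 2 * Real.sin ψ ^ 2) := ⟨_, rfl⟩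
  obtain ⟨H, hH⟩ : ∃ H : ℝ → ℝ, H = fun ψ => r ψ - 2 * ρ₂ * Real.cos (ψ - α) := ⟨_, rfl⟩
  have hcont : Continuous H := by
    rw [hH, hr]
    fun_prop
  have hab : Real.pi / 2 + α ≤ Real.pi := by linarith
  have hH1 : H (Real.pi / 2 + α) ≤ f := by
    rw [hH, hr]
    simp only
    have e1 : Real.pi / 2 + α - α = Real.pi / 2 := by ring
    have e2 : Real.cos (Real.pi / 2 + α) = -Real.sin α := by
      rw [add_comm, Real.cos_add_pi_div_two]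
    rw [e1, Real.cos_pi_div_two, e2, mul_zero, sub_zero]
    have h3 : Real.sqrt (f ^ 2 - ρ₁ ^ 2 * Real.sin (Real.pi / 2 + α) ^ 2) ≤ f := by
      rw [Real.sqrt_le_left hf0.le]
      have : 0 ≤ ρ₁ ^ 2 * Real.sin (Real.pi / 2 + α) ^ 2 := by positivity
      linarith
    have h4 : 0 ≤ ρ₁ * Real.sin α := by positivity
    linarith
  have hH2 : f ≤ H Real.pi := by
    rw [hH, hr]
    simp only
    rw [Real.cos_pi, Real.sin_pi, Real.cos_pi_sub]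
    have h3 : Real.sqrt (f ^ 2 - ρ₁ ^ 2 * 0 ^ 2) = f := by
      rw [zero_pow (by norm_num), mul_zero, sub_zero, Real.sqrt_sq hf0.le]
    rw [h3]
    nlinarith
  obtain ⟨ψ, hψ, hψf⟩ := intermediate_value_Icc hab hcont.continuousOn ⟨hH1, hH2⟩
  obtain ⟨C, hC⟩ : ∃ C, C = Real.cos ψ := ⟨_, rfl⟩
  obtain ⟨S, hS⟩ : ∃ S, S = Real.sin ψ := ⟨_, rfl⟩
  have hCS : C * C + S * S = 1 := by
    have := Real.cos_sq_add_sin_sq ψ
    rw [hC, hS]; linarith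
  have hC0 : C ≤ 0 := by
    rw [hC]
    exact Real.cos_nonpos_of_pi_div_two_le_of_le (by linarith [hψ.1]) (by linarith [hψ.2])
  obtain ⟨d, hd⟩ : ∃ d, d = r ψ := ⟨_, rfl⟩
  have hin : 0 ≤ f ^ 2 - ρ₁ ^ 2 * S ^ 2 := by
    have h3 : ρ₁ ^ 2 ≤ f ^ 2 := pow_le_pow_left₀ h0.le (by linarith) 2
    have h4 : ρ₁ ^ 2 * S ^ 2 ≤ ρ₁ ^ 2 * 1 := by
      refine mul_le_mul_of_nonneg_left ?_ (by positivity)
      nlinarith [mul_self_nonneg C]
    linarith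
  have hd1 : d - ρ₁ * C = Real.sqrt (f ^ 2 - ρ₁ ^ 2 * S ^ 2) := by
    rw [hd, hr, hC, hS]
    simp only
    ring
  have hd2 : (d - ρ₁ * C) * (d - ρ₁ * C) = f ^ 2 - ρ₁ ^ 2 * S ^ 2 := by
    rw [hd1, Real.mul_self_sqrt hin]
  have hdd : d ^ 2 = f ^ 2 - ρ₁ ^ 2 + 2 * ρ₁ * d * C := by
    linear_combination hd2 - ρ₁ ^ 2 * hCS
  have hdpos : 0 ≤ d := by
    have h3 : 0 ≤ d - ρ₁ * C := by rw [hd1]; exact Real.sqrt_nonneg _
    by_contra hcon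
    push Not at hcon
    have h4 : (d - ρ₁ * C) * (d - ρ₁ * C) < (ρ₁ * C) * (ρ₁ * C) := by
      have h5 : ρ₁ * C ≤ 0 := mul_nonpos_of_nonneg_of_nonpos h0.le hC0
      nlinarith
    have h6 : ρ₁ ^ 2 ≤ f ^ 2 := pow_le_pow_left₀ h0.le (by linarith) 2
    have h7 : ρ₁ ^ 2 * (C * C + S * S) = ρ₁ ^ 2 * 1 := by rw [hCS]
    nlinarith
  have hcosd : d - 2 * ρ₂ * Real.cos (ψ - α) = f := by
    rw [hd]
    rw [hH] at hψf
    exact hψf
  have hlow : f ≤ d + ρ₁ := by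
    by_contra hcon
    push Not at hcon
    have h3 : (d + ρ₁) ^ 2 < f ^ 2 := pow_lt_pow_left₀ hcon (by linarith) (by norm_num)
    have hC1 : -1 ≤ C := by rw [hC]; exact Real.neg_one_le_cos ψ
    nlinarith [mul_nonneg (mul_nonneg h0.le hdpos) (by linarith : (0 : ℝ) ≤ 1 + C)]
  -- the unit vectors
  obtain ⟨u, hu⟩ : ∃ u : ℂ, u = ⟨C, S⟩ := ⟨_, rfl⟩
  have hu1 : ‖u‖ = 1 := norm_eq_of_sq zero_le_one (by rw [hu]; simpa using hCS)
  have n1 : ‖(ρ₁ : ℂ) * u - d‖ = f := by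
    refine norm_eq_of_sq hf0.le ?_
    rw [hu]
    simp only [Complex.sub_re, Complex.sub_im, Complex.re_ofReal_mul, Complex.im_ofReal_mul,
      Complex.ofReal_re, Complex.ofReal_im, sub_zero]
    linear_combination hd2
  have n2 : ‖(ρ₁ : ℂ) * conj u - d‖ = f := by
    have h3 : (ρ₁ : ℂ) * conj u - d = conj ((ρ₁ : ℂ) * u - d) := by
      rw [map_sub, map_mul, Complex.conj_ofReal, Complex.conj_ofReal]
    rw [h3, Complex.norm_conj, n1]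
  have hE : conj γ * u + γ * conj u = ((2 * Real.cos (ψ - α) : ℝ) : ℂ) := by
    rw [Real.cos_sub, ← hC, ← hS, hγe, hu]
    generalize Real.cos α = a
    generalize Real.sin α = b
    apply Complex.ext
    · simp
      ring
    · simp
      ring
  refine ⟨d, hdpos, hlow, ?_, ?_⟩
  · have h3 : 2 * ρ₁ * d * C ≤ 0 :=
      mul_nonpos_of_nonneg_of_nonpos (by positivity) hC0
    linarith
  · intro p hp q hq hpq
    obtain ⟨θ, hθ, hθ'⟩ := exists_dir hpq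
    -- the red point near `p`
    have a1 : p + ρ₁ * (u * θ) ∉ R := by
      intro h3
      refine hF _ h3 _ hq ?_
      have h4 : p + ρ₁ * (u * θ) - q = ((ρ₁ : ℂ) * u - d) * θ := by linear_combination -hθ'
      rw [h4, norm_mul, hθ, mul_one, n1]
    have a2 := (h.r2 p hp (u * θ) (by rw [norm_mul, hu1, hθ, one_mul])).resolve_left a1
    -- the red point near `q`
    have b1 : q + ρ₁ * (-(conj u * θ)) ∉ R := by
      intro h3
      refine hF _ h3 _ hp ?_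
      have h4 : q + ρ₁ * (-(conj u * θ)) - p = -((ρ₁ : ℂ) * conj u - d) * θ := by
        linear_combination hθ'
      rw [h4, norm_mul, hθ, mul_one, norm_neg, n2]
    have b2 := (h.r1 q hq (-(conj u * θ)) (by
      rw [norm_neg, norm_mul, norm_conj_eq hu1, hθ, one_mul])).resolve_left b1
    refine hF _ b2 _ a2 ?_
    have h5 : q + ρ₂ * (γ * -(conj u * θ)) - (p + ρ₂ * (conj γ * (u * θ))) =
        ((f : ℝ) : ℂ) * θ := by
      rw [← hcosd]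
      push_cast
      push_cast at hE
      linear_combination hθ' - (ρ₂ * θ : ℂ) * hE
    rw [h5, norm_mul, hθ, mul_one, Complex.norm_real, Real.norm_of_nonneg hf0.le]

/-- the descent of forbidden distances -/
lemma Cfg.desc (h : Cfg R ρ₁ ρ₂ γ) (h0 : 0 < ρ₁) (h12 : ρ₁ ≤ ρ₂) {f : ℝ} (hF : Forb R f)
    (hf : 2 * ρ₂ ≤ f) :
    ∃ f' : ℝ, 0 ≤ f' ∧ f ≤ f' + ρ₁ ∧ f' ^ 2 ≤ f ^ 2 - ρ₁ ^ 2 ∧ Forb R f' := by
  rcases le_or_gt γ.re (1 / 2) with h1 | h1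
  · exact h.descX h0 h12 hF hf h1
  · rcases le_total 0 γ.im with h2 | h2
    · exact h.descM h0 h12 hF hf h1 h2
    · exact h.conj.descM h0 h12 hF hf (by rw [Complex.conj_re]; exact h1)
        (by rw [Complex.conj_im]; linarith)

/-- iteration of the descent -/
lemma Cfg.iter (h : Cfg R ρ₁ ρ₂ γ) (h0 : 0 < ρ₁) (h12 : ρ₁ ≤ ρ₂) (n : ℕ) :
    ∀ f : ℝ, Forb R f → 0 < f → f ^ 2 ≤ n * ρ₁ ^ 2 →
      ∃ g : ℝ, 0 < g ∧ g ≤ 2 * ρ₂ ∧ Forb R g := by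
  induction n with
  | zero =>
    intro f _ hf hn
    rw [Nat.cast_zero, zero_mul] at hn
    have : 0 < f ^ 2 := by positivity
    linarith
  | succ n ih =>
    intro f hF hf hn
    by_cases h1 : f ≤ 2 * ρ₂
    · exact ⟨f, hf, h1, hF⟩
    · push Not at h1
      obtain ⟨f', g0, g1, g2, g3⟩ := h.desc h0 h12 hF h1.le
      refine ih f' g3 (by linarith) ?_
      push_cast at hn
      linarith

/-- THE THEOREM for red sets in the complex plane -/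
theorem Cfg.false' (h : Cfg R ρ₁ ρ₂ γ) (h0 : 0 < ρ₁) (h12 : ρ₁ ≤ ρ₂) (hU : Forb R 1)
    (hne : R.Nonempty) : False := by
  obtain ⟨n, hn⟩ := exists_nat_ge (1 / ρ₁ ^ 2)
  rw [div_le_iff₀ (by positivity)] at hn
  obtain ⟨g, hg0, hg2, hF⟩ := h.iter h0 h12 n 1 hU one_pos (by rw [one_pow]; exact hn)
  have h2 : 0 < ρ₂ := by linarith
  obtain ⟨t, ht, ht1, -⟩ := chord (x := g / ρ₂) (by positivity) (by
    rw [div_le_iff₀ h2]; exact hg2)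
  have ht2 : ρ₂ * ‖1 - t‖ = g := by rw [ht1]; field_simp
  exact (h.cov ht (hF.free h2.le ht2)).false h0 ht hU hne

theorem Cfg.false (h : Cfg R ρ₁ ρ₂ γ) (h1 : 0 < ρ₁) (h2 : 0 < ρ₂) (hU : Forb R 1)
    (hne : R.Nonempty) : False := by
  rcases le_total ρ₁ ρ₂ with h12 | h12
  · exact h.false' h1 h12 hU hne
  · exact h.symm.false' h2 h12 hU hne

end Pool.Agent.H18.ER
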