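import Pool.Agent.H18.ER.Defs

/-!
# MP_024b85_co: the main lemma

An even element `g ≠ 1` with `ρ |1 - g| ≤ 2` is impossible if the pairs are covered.
-/

set_option autoImplicit false

namespace Pool.Agent.H18.ER

open ComplexConjugate

variable {R : Set ℂ} {ρ : ℝ}

/-- a rotation which moves a translate by `1`: if `ρ n |1 - τ| = 1` and `n` is a walk then `τ` is
free -/
lemma free_of_wk {n : ℕ} {τ : ℂ} (hρ : 0 < ρ) (hU : Forb R 1) (hn : Wk R ρ n)
    (hτ : ‖τ‖ = 1) (h : ρ * (n * ‖1 - τ‖) = 1) : Free R ρ τ := by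
  intro p hp θ hθ h1 h2
  have h3 := (hn p hp θ hθ h1).1
  have h4 := (hn p hp (τ * θ) (by rw [norm_mul, hτ, hθ, one_mul]) h2).1
  refine hU _ h3 _ h4 ?_
  have h5 : p + ρ * (θ * n) - (p + ρ * (τ * θ * n)) = ρ * (n * ((1 - τ) * θ)) := by ring
  rw [h5, norm_mul, norm_mul, norm_mul, hθ, mul_one, Complex.norm_real, Complex.norm_natCast,
    Real.norm_of_nonneg hρ.le, h]

/-- second half of the main lemma -/
lemma main_neg {s : ℂ} (hρ : 0 < ρ) (hU : Forb R 1) (hne : R.Nonempty) (hs : ‖s‖ = 1)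
    (hc : Cov R ρ s) (hm : Even R ρ (-1)) : False := by
  obtain ⟨p, hp⟩ := hne
  obtain ⟨v, hv, hpv⟩ : ∃ v : ℂ, ‖v‖ = 1 ∧ p + ρ * v ∈ R := by
    rcases hc p hp 1 norm_one with h | h
    · exact ⟨1, norm_one, h⟩
    · exact ⟨s * 1, by rw [mul_one, hs], h⟩
  have h1 : Wk R ρ 1 := Even.wk' norm_one hm even_one
  have hN : ∀ n : ℕ, Wk R ρ n := by
    intro n
    have := h1.nsmul n
    rwa [mul_one] at this
  obtain ⟨r, hr⟩ : ∃ r, r = 1 / ρ := ⟨_, rfl⟩
  have hr0 : 0 < r := by rw [hr]; positivity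
  have hρr : ρ * r = 1 := by rw [hr]; field_simp
  obtain ⟨n, hn⟩ := exists_nat_ge (r + 1)
  have hn1 : (1 : ℝ) ≤ n := by linarith
  have hn0 : (0 : ℝ) < n := by linarith
  have hrn : r / n ≤ 1 := by rw [div_le_one hn0]; linarith
  -- the rotations
  obtain ⟨τ, hτ, hτ1, hτ2⟩ := chord (x := r / n) (by positivity) (by linarith)
  obtain ⟨τ', hτ', hτ1', hτ2'⟩ := chord (x := r / (2 * n)) (by positivity) (by
    have : r / (2 * n) = r / n / 2 := by field_simp
    rw [this]; linarith)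
  obtain ⟨κ, hκ, hκ1, -⟩ := chord (x := r / (6 * n)) (by positivity) (by
    have : r / (6 * n) = r / n / 6 := by field_simp
    rw [this]; linarith)
  have oτ : Odd R ρ τ := hc.odd hs hτ (free_of_wk hρ hU (hN n) hτ (by rw [hτ1]; field_simp; linarith))
  have oτ' : Odd R ρ τ' := hc.odd hs hτ' (free_of_wk hρ hU (hN (2 * n)) hτ' (by
    rw [hτ1']; push_cast; field_simp; linarith))
  have oτ'' : Odd R ρ (conj τ') := hc.odd hs (norm_conj_eq hτ')
    (free_of_wk hρ hU (hN (2 * n)) (norm_conj_eq hτ') (by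
      rw [hτ2']; push_cast; field_simp; linarith))
  have oκ : Odd R ρ κ := hc.odd hs hκ (free_of_wk hρ hU (hN (6 * n)) hκ (by
    rw [hκ1]; push_cast; field_simp; linarith))
  -- the identity
  have e1 := add_conj_of_chord hτ hτ1
  have e2 := add_conj_of_chord hτ' hτ1'
  have hnC : (n : ℂ) ≠ 0 := by
    have : n ≠ 0 := by rintro rfl; norm_num at hn1
    exact_mod_cast this
  have hid : (6 : ℂ) * τ = ((4 : ℕ) : ℂ) * (τ * τ') + ((4 : ℕ) : ℂ) * (τ * conj τ') +
      -1 * (τ * τ) + -1 := by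
    have h3 := mul_conj_unit hτ
    push_cast at e1 e2 ⊢
    have e3 : (4 : ℂ) * (τ' + conj τ') - (τ + conj τ) = 6 := by
      rw [e1, e2]; field_simp; ring
    linear_combination (-τ) * e3 - h3
  have w6 : Wk R ρ (6 * τ) := by
    rw [hid]
    refine Wk.add (Wk.add (Wk.add (Wk.nsmul ?_ 4) (Wk.nsmul ?_ 4)) ?_) ?_
    · exact Even.wk' (by rw [norm_mul, hτ, hτ', one_mul]) hm (oτ.mul hτ' oτ')
    · exact Even.wk' (by rw [norm_mul, hτ, norm_conj_eq hτ', one_mul]) hm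
        (oτ.mul (norm_conj_eq hτ') oτ'')
    · exact Even.wk' (by rw [norm_mul, norm_neg, norm_one, norm_mul, hτ, one_mul, one_mul]) hm
        (hm.mul (by rw [norm_mul, hτ, one_mul]) (oτ.mul hτ oτ))
    · exact Even.wk' (by rw [norm_neg, norm_one]) hm hm
  have h3 := (w6.nsmul n p hp v hv hpv).1
  -- the last contradiction
  have h4 : p + ρ * (τ * v) ∉ R := (oτ p hp v hv).1 hpv
  have hτv : ‖τ * v‖ = 1 := by rw [norm_mul, hτ, hv, one_mul]
  have h5 : p + ρ * (κ * (τ * v)) ∈ R := by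
    by_contra h6
    exact h4 ((oκ p hp _ hτv).2 h6)
  have h6 := (hN (6 * n) p hp (κ * (τ * v)) (by rw [norm_mul, hκ, hτv, one_mul]) h5).1
  refine hU _ h3 _ h6 ?_
  have h7 : p + ρ * (v * (n * (6 * τ))) - (p + ρ * (κ * (τ * v) * (6 * n : ℕ))) =
      ρ * ((6 * n : ℕ) * ((1 - κ) * (τ * v))) := by push_cast; ring
  rw [h7, norm_mul, norm_mul, norm_mul, hτv, mul_one, Complex.norm_real, Complex.norm_natCast,
    Real.norm_of_nonneg hρ.le, hκ1]
  push_cast
  field_simp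
  linarith

/-- THE MAIN LEMMA -/
theorem main_lemma {s g : ℂ} (hρ : 0 < ρ) (hU : Forb R 1) (hne : R.Nonempty) (hs : ‖s‖ = 1)
    (hc : Cov R ρ s) (hg : ‖g‖ = 1) (eg : Even R ρ g) (hg1 : g ≠ 1) (hgρ : ρ * ‖1 - g‖ ≤ 2) :
    False := by
  obtain ⟨L, hL⟩ : ∃ L, L = ‖1 - g‖ := ⟨_, rfl⟩
  have hL0 : 0 < L := by
    rw [hL, norm_pos_iff, sub_ne_zero]
    exact hg1.symm
  obtain ⟨r, hr⟩ : ∃ r, r = 1 / ρ := ⟨_, rfl⟩
  have hr0 : 0 < r := by rw [hr]; positivity
  have hρr : ρ * r = 1 := by rw [hr]; field_simp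
  have hLr : L ≤ 2 * r := by
    rw [← hL] at hgρ
    have : ρ * L ≤ ρ * (2 * r) := by linarith
    exact le_of_mul_le_mul_left this hρ
  obtain ⟨k, hk⟩ := exists_nat_ge ((r + L) / L ^ 2)
  rw [div_le_iff₀ (by positivity)] at hk
  obtain ⟨b, hb⟩ : ∃ b, b = 1 + k * L ^ 2 := ⟨_, rfl⟩
  have hb1 : r + L ≤ b := by linarith
  have hb0 : 0 < b := by linarith
  obtain ⟨m, hm⟩ : ∃ m, m = round (b / L) := ⟨_, rfl⟩
  have hround : |b / L - m| ≤ 1 / 2 := by rw [hm]; exact abs_sub_round _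
  have hbL : 1 ≤ b / L := by rw [one_le_div₀ hL0]; linarith
  have hm1 : 1 ≤ m := by
    have h1 : (1 / 2 : ℝ) ≤ m := by
      have := (abs_le.1 hround).2
      linarith
    have h2 : (0 : ℝ) < m := by linarith
    have h3 : (0 : ℤ) < m := by exact_mod_cast h2
    omega
  obtain ⟨n, rfl⟩ : ∃ n : ℕ, m = n := ⟨m.toNat, by omega⟩
  have hn1 : (1 : ℝ) ≤ n := by exact_mod_cast hm1
  have hmL : |(n : ℝ) * L - b| ≤ r := by
    have h1 : (n : ℝ) * L - b = -(L * (b / L - ((n : ℤ) : ℝ))) := by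
      push_cast
      field_simp
      ring
    rw [h1, abs_neg, abs_mul, abs_of_pos hL0]
    calc L * |b / L - ((n : ℤ) : ℝ)| ≤ L * (1 / 2) := mul_le_mul_of_nonneg_left hround hL0.le
      _ ≤ r := by linarith
  obtain ⟨w, hw, hw1, hw2⟩ := tri (a := (n : ℝ) * L) (b := b) (r := r) (by positivity) hb0 hmL (by
    have : 0 < (n : ℝ) * L := by positivity
    linarith)
  -- the walks
  have wa : Wk R ρ (n * (1 - g)) := (Even.wk norm_one hg even_one eg).nsmul n
  have hgg := mul_conj_unit hg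
  have hL2 : (1 - g) * conj (1 - g) = (L : ℂ) ^ 2 := by rw [Complex.mul_conj', ← hL]
  rw [map_sub, map_one] at hL2
  have wb : Wk R ρ ((b : ℂ) - 1) := by
    have h1 := (Even.wk norm_one hg even_one eg).nsmul k
    have h2 := (Even.wk norm_one (norm_conj_eq hg) even_one (eg.conj hg)).nsmul k
    have h3 := h1.add h2
    have h4 : (b : ℂ) - 1 = k * (1 - g) + k * (1 - conj g) := by
      rw [hb]
      push_cast
      linear_combination (-(k : ℂ)) * hL2 + (k : ℂ) * hgg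
    rw [h4]
    exact h3
  obtain ⟨u, hu⟩ : ∃ u : ℂ, u = (1 - g) / L := ⟨_, rfl⟩
  have hLC : (L : ℂ) ≠ 0 := by exact_mod_cast hL0.ne'
  have huL : u * L = 1 - g := by rw [hu, div_mul_cancel₀ _ hLC]
  have hu1 : ‖u‖ = 1 := by
    rw [hu, norm_div, ← hL, Complex.norm_real, Real.norm_of_nonneg hL0.le, div_self hL0.ne']
  have key : ∀ w' : ℂ, ‖w'‖ = 1 → ‖(((n : ℝ) * L : ℝ) : ℂ) - w' * b‖ = r → Odd R ρ (u * w') := by
    intro w' hw' hr'
    have hn' : ‖u * w'‖ = 1 := by rw [norm_mul, hu1, hw', one_mul]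
    refine hc.odd hs hn' ?_
    intro p hp θ hθ h1 h2
    have h3 := (wa p hp θ hθ h1).1
    have hn'' : ‖u * w' * θ‖ = 1 := by rw [norm_mul, hn', hθ, one_mul]
    have h4 := (wb p hp (u * w' * θ) hn'' h2).2
    refine hU _ h3 _ h4 ?_
    have h5 : p + ρ * (θ * (n * (1 - g))) -
        (p + ρ * (u * w' * θ * ((b : ℂ) - 1)) + ρ * (u * w' * θ)) =
        ρ * (u * ((((n : ℝ) * L : ℝ) : ℂ) - w' * b) * θ) := by
      rw [← huL]
      push_cast
      ring
    rw [h5, norm_mul, norm_mul, norm_mul, hθ, mul_one, hu1, one_mul, hr', Complex.norm_real,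
      Real.norm_of_nonneg hρ.le, hρr]
  have o1 := key w hw hw1
  have o2 := key (conj w) (norm_conj_eq hw) hw2
  have e1 := o1.mul (by rw [norm_mul, hu1, norm_conj_eq hw, one_mul]) o2
  have h1 : u * w * (u * conj w) = -g := by
    have h2 : u * w * (u * conj w) = u * u := by
      have := mul_conj_unit hw
      linear_combination u * u * this
    rw [h2]
    have h3 : (u * u) * (L : ℂ) ^ 2 = -g * (L : ℂ) ^ 2 := by
      have h4 : (u * u) * (L : ℂ) ^ 2 = (u * L) * (u * L) := by ring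
      rw [h4, huL, ← hL2]
      linear_combination ((g : ℂ) - 1) * hgg
    exact mul_right_cancel₀ (pow_ne_zero 2 hLC) h3
  rw [h1] at e1
  have hm : Even R ρ (-1) := by
    have h2 := e1.mul (norm_conj_eq hg) (eg.conj hg)
    have h3 : -g * conj g = -1 := by rw [neg_mul, hgg]
    rwa [h3] at h2
  exact main_neg hρ hU hne hs hc hm

end Pool.Agent.H18.ER
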