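import Pool.Agent.H18.ER.Full

/-!
# MP_024b85_co: the unit circle and two further points, in the complex plane and in the plane
-/

set_option autoImplicit false

namespace Pool.Agent.H18.ER

open ComplexConjugate

/-- rotations about `O` followed by a translation -/
lemma exists_rot {u : ℂ} (hu : ‖u‖ = 1) (O p : ℂ) : ∃ f : ℂ ≃ᵢ ℂ, ∀ z, f z = p + u * (z - O) := by
  refine ⟨(IsometryEquiv.subRight O).trans
    ((rotation (⟨u, mem_sphere_zero_iff_norm.2 hu⟩ : Circle)).toIsometryEquiv.trans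
      (IsometryEquiv.addLeft p)), fun z => ?_⟩
  rfl

/-- reflections -/
lemma exists_ref {u : ℂ} (hu : ‖u‖ = 1) (O p : ℂ) :
    ∃ f : ℂ ≃ᵢ ℂ, ∀ z, f z = p + u * conj (z - O) := by
  refine ⟨(IsometryEquiv.subRight O).trans
    (Complex.conjLIE.toIsometryEquiv.trans
    ((rotation (⟨u, mem_sphere_zero_iff_norm.2 hu⟩ : Circle)).toIsometryEquiv.trans
      (IsometryEquiv.addLeft p))), fun z => ?_⟩
  rfl

/-- the theorem in the complex plane -/
theorem complex_plane (O c d : ℂ) (hc : c ≠ O) (hd : d ≠ O) (red : Set ℂ) :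
    (∃ x ∈ red, ∃ y ∈ red, dist x y = 1) ∨
      ∃ f : ℂ ≃ᵢ ℂ, ∀ k, (dist k O = 1 ∨ k = c ∨ k = d) → f k ∉ red := by
  by_contra hcon
  push Not at hcon
  obtain ⟨hU, hK⟩ := hcon
  have hF : Forb red 1 := by
    intro p hp q hq h
    exact hU p hp q hq (by rw [dist_eq_norm, h])
  have hne : red.Nonempty := by
    obtain ⟨k, -, hk⟩ := hK (IsometryEquiv.refl ℂ)
    exact ⟨_, hk⟩
  obtain ⟨ρ₁, hρ₁⟩ : ∃ ρ₁, ρ₁ = ‖c - O‖ := ⟨_, rfl⟩
  obtain ⟨ρ₂, hρ₂⟩ : ∃ ρ₂, ρ₂ = ‖d - O‖ := ⟨_, rfl⟩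
  have h1 : 0 < ρ₁ := by rw [hρ₁, norm_pos_iff, sub_ne_zero]; exact hc
  have h2 : 0 < ρ₂ := by rw [hρ₂, norm_pos_iff, sub_ne_zero]; exact hd
  obtain ⟨a, ha, ha'⟩ : ∃ a : ℂ, ‖a‖ = 1 ∧ c - O = ρ₁ * a :=
    exists_dir (p := O) (q := c) (by rw [norm_sub_rev]; exact hρ₁.symm)
  obtain ⟨b, hb, hb'⟩ : ∃ b : ℂ, ‖b‖ = 1 ∧ d - O = ρ₂ * b :=
    exists_dir (p := O) (q := d) (by rw [norm_sub_rev]; exact hρ₂.symm)
  have haa := mul_conj_unit ha
  have hdist : ∀ f : ℂ ≃ᵢ ℂ, f O ∈ red → f c ∈ red ∨ f d ∈ red := by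
    intro f hf
    obtain ⟨k, hk, hk'⟩ := hK f
    rcases hk with hk | rfl | rfl
    · exact absurd (by rw [f.dist_eq, hk]) (hU _ hk' _ hf)
    · exact Or.inl hk'
    · exact Or.inr hk'
  have hcfg : Cfg red ρ₁ ρ₂ (b * conj a) := by
    refine ⟨by rw [norm_mul, hb, norm_conj_eq ha, one_mul], ?_, ?_⟩
    · intro p hp θ hθ
      obtain ⟨f, hf⟩ := exists_rot (u := θ * conj a) (by
        rw [norm_mul, hθ, norm_conj_eq ha, one_mul]) O p
      have h3 := hdist f (by rw [hf, sub_self, mul_zero, add_zero]; exact hp)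
      have e1 : f c = p + ρ₁ * θ := by
        rw [hf, ha']
        linear_combination (ρ₁ * θ : ℂ) * haa
      have e2 : f d = p + ρ₂ * (b * conj a * θ) := by
        rw [hf, hb']
        ring
      rw [e1, e2] at h3
      exact h3
    · intro p hp θ hθ
      obtain ⟨f, hf⟩ := exists_ref (u := θ * a) (by rw [norm_mul, hθ, ha, one_mul]) O p
      have h3 := hdist f (by rw [hf, sub_self, map_zero, mul_zero, add_zero]; exact hp)
      have e1 : f c = p + ρ₁ * θ := by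
        rw [hf, ha', map_mul, Complex.conj_ofReal]
        linear_combination (ρ₁ * θ : ℂ) * haa
      have e2 : f d = p + ρ₂ * (conj (b * conj a) * θ) := by
        rw [hf, hb', map_mul, map_mul, Complex.conj_ofReal, Complex.conj_conj]
        ring
      rw [e1, e2] at h3
      exact h3
  exact hcfg.false h1 h2 hF hne

/-- the Euclidean plane -/
abbrev Plane : Type := EuclideanSpace ℝ (Fin 2)

/-- the theorem in the Euclidean plane -/
theorem real_plane (O c d : Plane) (hc : c ≠ O) (hd : d ≠ O) (red : Set Plane) :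
    (∃ x ∈ red, ∃ y ∈ red, dist x y = 1) ∨
      ∃ f : Plane ≃ᵢ Plane, ∀ k, (dist k O = 1 ∨ k = c ∨ k = d) → f k ∉ red := by
  obtain ⟨e⟩ : Nonempty (ℂ ≃ᵢ Plane) := ⟨Complex.orthonormalBasisOneI.repr.toIsometryEquiv⟩
  rcases complex_plane (e.symm O) (e.symm c) (e.symm d) (e.symm.injective.ne hc)
    (e.symm.injective.ne hd) (e ⁻¹' red) with ⟨x, hx, y, hy, hxy⟩ | ⟨f, hf⟩
  · exact Or.inl ⟨e x, hx, e y, hy, by rw [e.dist_eq, hxy]⟩
  · right
    refine ⟨e.symm.trans (f.trans e), fun k hk => ?_⟩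
    have h1 := hf (e.symm k) (by
      rcases hk with hk | rfl | rfl
      · left
        rw [e.symm.dist_eq, hk]
      · exact Or.inr (Or.inl rfl)
      · exact Or.inr (Or.inr rfl))
    exact h1

/-- a maximal set without unit distances meets all copies of the unit circle with its centre -/
theorem exists_red : ∃ red : Set Plane, (∀ x ∈ red, ∀ y ∈ red, dist x y ≠ 1) ∧
    ∀ p, p ∈ red ∨ ∃ x ∈ red, dist x p = 1 := by
  obtain ⟨R, hR⟩ := zorn_subset {R : Set Plane | ∀ x ∈ R, ∀ y ∈ R, dist x y ≠ 1} (by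
    intro c hc hch
    refine ⟨⋃₀ c, ?_, fun s hs => Set.subset_sUnion_of_mem hs⟩
    intro x hx y hy
    obtain ⟨s, hs, hxs⟩ := hx
    obtain ⟨t, ht, hyt⟩ := hy
    rcases hch.total hs ht with h | h
    · exact hc ht x (h hxs) y hyt
    · exact hc hs x hxs y (h hyt))
  refine ⟨R, hR.prop, fun p => ?_⟩
  by_contra hcon
  push Not at hcon
  obtain ⟨h1, h2⟩ := hcon
  have h3 : insert p R ∈ {R : Set Plane | ∀ x ∈ R, ∀ y ∈ R, dist x y ≠ 1} := by
    intro x hx y hy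
    rcases hx with rfl | hx <;> rcases hy with rfl | hy
    · rw [dist_self]; norm_num
    · rw [dist_comm]; exact h2 y hy
    · exact h2 x hx
    · exact hR.prop x hx y hy
  exact h1 (hR.le_of_ge h3 (Set.subset_insert _ _) (Set.mem_insert _ _))

end Pool.Agent.H18.ER
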