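import Pool.Agent.H18.ER.Main

/-!
# MP_024b85_co: the pairs of radii

`Cfg R ρ₁ ρ₂ γ`: for each red point `p` and each `θ` of absolute value one `p + ρ₁ θ` or
`p + ρ₂ γ θ` is red, and the same for the conjugate of `γ`.
-/

set_option autoImplicit false

namespace Pool.Agent.H18.ER

open ComplexConjugate

variable {R : Set ℂ} {ρ ρ₁ ρ₂ : ℝ} {γ : ℂ}

lemma norm_eq_of_sq {z : ℂ} {c : ℝ} (hc : 0 ≤ c) (h : z.re * z.re + z.im * z.im = c * c) :
    ‖z‖ = c := by
  rw [Complex.norm_def, Complex.normSq_apply, h, Real.sqrt_mul_self hc]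

/-- the rule for two further points -/
structure Cfg (R : Set ℂ) (ρ₁ ρ₂ : ℝ) (γ : ℂ) : Prop where
  unit : ‖γ‖ = 1
  r1 : ∀ p ∈ R, ∀ θ : ℂ, ‖θ‖ = 1 → p + ρ₁ * θ ∈ R ∨ p + ρ₂ * (γ * θ) ∈ R
  r2 : ∀ p ∈ R, ∀ θ : ℂ, ‖θ‖ = 1 → p + ρ₁ * θ ∈ R ∨ p + ρ₂ * (conj γ * θ) ∈ R

lemma Cfg.symm (h : Cfg R ρ₁ ρ₂ γ) : Cfg R ρ₂ ρ₁ γ := by
  refine ⟨h.unit, ?_, ?_⟩
  · intro p hp θ hθ
    have h1 := h.r2 p hp (γ * θ) (by rw [norm_mul, h.unit, hθ, one_mul])
    have h2 : conj γ * (γ * θ) = θ := by rw [← mul_assoc, conj_mul_unit h.unit, one_mul]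
    rw [h2] at h1
    exact h1.symm
  · intro p hp θ hθ
    have h1 := h.r1 p hp (conj γ * θ) (by rw [norm_mul, norm_conj_eq h.unit, hθ, one_mul])
    have h2 : γ * (conj γ * θ) = θ := by rw [← mul_assoc, mul_conj_unit h.unit, one_mul]
    rw [h2] at h1
    exact h1.symm

/-- a free rotation for `ρ₂` gives a cover for `ρ₁` -/
lemma Cfg.cov (h : Cfg R ρ₁ ρ₂ γ) {t : ℂ} (ht : ‖t‖ = 1) (hf : Free R ρ₂ t) : Cov R ρ₁ t := by
  intro p hp θ hθ
  by_contra hcon
  push Not at hcon
  have h1 := (h.r1 p hp θ hθ).resolve_left hcon.1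
  have h2 := (h.r1 p hp (t * θ) (by rw [norm_mul, ht, hθ, one_mul])).resolve_left hcon.2
  refine hf p hp (γ * θ) (by rw [norm_mul, h.unit, hθ, one_mul]) h1 ?_
  have h3 : t * (γ * θ) = γ * (t * θ) := by ring
  rw [h3]
  exact h2

/-- Lemma C: a forbidden distance between the two circles gives even rotations -/
lemma Cfg.even (h : Cfg R ρ₁ ρ₂ γ) {f : ℝ} (hF : Forb R f) {z : ℂ} (hz : ‖z‖ = 1)
    (h1 : ‖(ρ₁ : ℂ) - z * ρ₂‖ = f) (h2 : ‖(ρ₁ : ℂ) - conj z * ρ₂‖ = f) :
    Even R ρ₁ (conj γ * z) ∧ Even R ρ₁ (γ * z) := by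
  have hγ := h.unit
  have hγ' := norm_conj_eq hγ
  -- one direction, for all four rotations
  have key : ∀ z' : ℂ, ‖z'‖ = 1 → ‖(ρ₁ : ℂ) - z' * ρ₂‖ = f → ∀ p ∈ R, ∀ θ : ℂ, ‖θ‖ = 1 →
      p + ρ₁ * θ ∈ R → p + ρ₁ * (conj γ * z' * θ) ∈ R ∧ p + ρ₁ * (γ * z' * θ) ∈ R := by
    intro z' hz' hn p hp θ hθ hpθ
    have h3 : p + ρ₂ * (z' * θ) ∉ R := by
      intro h4
      refine hF _ hpθ _ h4 ?_
      have h5 : p + ρ₁ * θ - (p + ρ₂ * (z' * θ)) = ((ρ₁ : ℂ) - z' * ρ₂) * θ := by ring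
      rw [h5, norm_mul, hθ, mul_one, hn]
    constructor
    · have h4 := h.r1 p hp (conj γ * z' * θ) (by rw [norm_mul, norm_mul, hγ', hz', hθ]; norm_num)
      have h5 : γ * (conj γ * z' * θ) = z' * θ := by
        have := mul_conj_unit hγ
        linear_combination (z' * θ) * this
      rw [h5] at h4
      exact h4.resolve_right h3
    · have h4 := h.r2 p hp (γ * z' * θ) (by rw [norm_mul, norm_mul, hγ, hz', hθ]; norm_num)
      have h5 : conj γ * (γ * z' * θ) = z' * θ := by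
        have := conj_mul_unit hγ
        linear_combination (z' * θ) * this
      rw [h5] at h4
      exact h4.resolve_right h3
  have hz' := norm_conj_eq hz
  constructor
  · intro p hp θ hθ
    refine ⟨fun h3 => (key z hz h1 p hp θ hθ h3).1, fun h3 => ?_⟩
    have h4 := (key (conj z) hz' h2 p hp (conj γ * z * θ)
      (by rw [norm_mul, norm_mul, hγ', hz, hθ]; norm_num) h3).2
    have h5 : γ * conj z * (conj γ * z * θ) = θ := by
      have e1 := mul_conj_unit hγ
      have e2 := mul_conj_unit hz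
      linear_combination (z * conj z * θ) * e1 + θ * e2
    rw [h5] at h4
    exact h4
  · intro p hp θ hθ
    refine ⟨fun h3 => (key z hz h1 p hp θ hθ h3).2, fun h3 => ?_⟩
    have h4 := (key (conj z) hz' h2 p hp (γ * z * θ)
      (by rw [norm_mul, norm_mul, hγ, hz, hθ]; norm_num) h3).1
    have h5 : conj γ * conj z * (γ * z * θ) = θ := by
      have e1 := mul_conj_unit hγ
      have e2 := mul_conj_unit hz
      linear_combination (z * conj z * θ) * e1 + θ * e2
    rw [h5] at h4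
    exact h4

/-- a rotation by a distance one -/
lemma exists_free (hU : Forb R 1) (hρ : 1 / 2 ≤ ρ) : ∃ t : ℂ, ‖t‖ = 1 ∧ ρ * ‖1 - t‖ = 1 ∧
    Free R ρ t := by
  have hρ0 : 0 < ρ := by linarith
  obtain ⟨t, ht, h1, -⟩ := chord (x := 1 / ρ) (by positivity) (by
    rw [div_le_iff₀ hρ0]; linarith)
  have h2 : ρ * ‖1 - t‖ = 1 := by rw [h1]; field_simp
  exact ⟨t, ht, h2, hU.free hρ0.le h2⟩

/-- Region 1, one radius larger than `1/2` -/
lemma reg1a (hU : Forb R 1) (hne : R.Nonempty) (h : Cfg R ρ₁ ρ₂ γ) (h1 : 1 / 2 < ρ₁)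
    (h2 : 1 / 2 ≤ ρ₂) : False := by
  have hρ : 0 < ρ₁ := by linarith
  obtain ⟨t, ht, ht1, htf⟩ := exists_free hU h1.le
  obtain ⟨s, hs, -, hsf⟩ := exists_free hU h2
  have hc := h.cov hs hsf
  have ho := hc.odd hs ht htf
  refine main_lemma hρ hU hne hs hc (by rw [norm_mul, ht, one_mul]) (ho.mul ht ho) ?_ ?_
  · intro h3
    have h4 : (1 - t) * (1 + t) = 0 := by linear_combination -h3
    rcases mul_eq_zero.1 h4 with h5 | h5
    · rw [h5, norm_zero, mul_zero] at ht1
      exact zero_ne_one ht1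
    · have h6 : t = -1 := by linear_combination h5
      rw [h6] at ht1
      have h7 : ‖(1 : ℂ) - -1‖ = 2 := by
        rw [sub_neg_eq_add, one_add_one_eq_two]; norm_num
      rw [h7] at ht1
      linarith
  · have h3 : 1 - t * t = (1 - t) * (1 + t) := by ring
    have h4 : ‖1 + t‖ ≤ 2 := (norm_add_le _ _).trans (by rw [norm_one, ht]; norm_num)
    rw [h3, norm_mul, ← mul_assoc, ht1, one_mul]
    exact h4

/-- Region 1, both radii `1/2` -/
lemma reg1b (hU : Forb R 1) (hne : R.Nonempty) (h : Cfg R (1 / 2) (1 / 2) γ) : False := by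
  have hρ : (0 : ℝ) < 1 / 2 := by norm_num
  have hγ := h.unit
  have hfm : Free R (1 / 2) (-1) := hU.free hρ.le (by
    rw [sub_neg_eq_add, one_add_one_eq_two]; norm_num)
  have hcγ : Cov R (1 / 2) γ := h.r1
  have hom : Odd R (1 / 2) (-1) := hcγ.odd hγ (by rw [norm_neg, norm_one]) hfm
  have hfγ : Free R (1 / 2) γ := by
    intro p hp θ hθ h1 h2
    have h3 := (hom p hp θ hθ).1 h1
    have h4 := (hom p hp (γ * θ) (by rw [norm_mul, hγ, hθ, one_mul])).1 h2
    rcases hcγ p hp (-1 * θ) (by rw [norm_mul, norm_neg, norm_one, hθ, one_mul]) with h5 | h5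
    · exact h3 h5
    · apply h4
      have h6 : -1 * (γ * θ) = γ * (-1 * θ) := by ring
      rw [h6]
      exact h5
  have hoγ := hcγ.odd hγ hγ hfγ
  by_cases hg : γ * γ = 1
  · have h4 : (γ - 1) * (γ + 1) = 0 := by linear_combination hg
    rcases mul_eq_zero.1 h4 with h5 | h5
    · have h6 : γ = 1 := by linear_combination h5
      obtain ⟨p, hp⟩ := hne
      rw [h6] at hcγ hfγ
      rcases hcγ p hp 1 norm_one with h7 | h7
      · exact hfγ p hp 1 norm_one h7 (by rw [one_mul]; exact h7)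
      · rw [one_mul] at h7
        exact hfγ p hp 1 norm_one h7 (by rw [one_mul]; exact h7)
    · have h6 : γ = -1 := by linear_combination h5
      rw [h6] at hcγ
      -- `√3 / 2` is a forbidden distance
      have hI : ‖(1 : ℂ) + Complex.I * Real.sqrt 3‖ = 2 := by
        have : Real.sqrt 3 * Real.sqrt 3 = 3 := Real.mul_self_sqrt (by norm_num)
        refine norm_eq_of_sq (by norm_num) ?_
        simp
        linarith
      have hI' : ‖(1 : ℂ) - Complex.I * Real.sqrt 3‖ = 2 := by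
        have : Real.sqrt 3 * Real.sqrt 3 = 3 := Real.mul_self_sqrt (by norm_num)
        refine norm_eq_of_sq (by norm_num) ?_
        simp
        linarith
      have h3 : (0 : ℝ) < Real.sqrt 3 := Real.sqrt_pos.2 (by norm_num)
      have h3C : ((Real.sqrt 3 : ℝ) : ℂ) ≠ 0 := by exact_mod_cast h3.ne'
      have h33 : ((Real.sqrt 3 : ℝ) : ℂ) * ((Real.sqrt 3 : ℝ) : ℂ) = 3 := by
        have : Real.sqrt 3 * Real.sqrt 3 = 3 := Real.mul_self_sqrt (by norm_num)
        exact_mod_cast this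
      have hforb : Forb R (Real.sqrt 3 / 2) := by
        intro p hp q hq hpq
        -- the unit vector perpendicular to `q - p`
        obtain ⟨θ, hθ⟩ : ∃ θ : ℂ, θ = (p - q) * (2 / Real.sqrt 3) * Complex.I := ⟨_, rfl⟩
        have hθ1 : ‖θ‖ = 1 := by
          rw [hθ, norm_mul, norm_mul, hpq, Complex.norm_I, mul_one, norm_div, Complex.norm_real,
            Real.norm_of_nonneg h3.le]
          have : ‖(2 : ℂ)‖ = 2 := by norm_num
          rw [this]
          field_simp
        have hpq' : p - q = -(Complex.I * Real.sqrt 3 / 2 * θ) := by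
          rw [hθ]
          have hI2 := Complex.I_mul_I
          field_simp
          linear_combination (p - q) * hI2
        have hd : ∀ ε : ℂ, (ε = 1 ∨ ε = -1) → ‖p + ((1 / 2 : ℝ) : ℂ) * (ε * θ) - q‖ = 1 := by
          intro ε hε
          have h7 : p + ((1 / 2 : ℝ) : ℂ) * (ε * θ) - q =
              (ε - Complex.I * Real.sqrt 3) / 2 * θ := by
            push_cast
            linear_combination hpq'
          rw [h7, norm_mul, hθ1, mul_one, norm_div]
          have : ‖(2 : ℂ)‖ = 2 := by norm_num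
          rw [this]
          rcases hε with rfl | rfl
          · rw [hI']; norm_num
          · have h8 : (-1 : ℂ) - Complex.I * Real.sqrt 3 = -(1 + Complex.I * Real.sqrt 3) := by ring
            rw [h8, norm_neg, hI]; norm_num
        rcases hcγ p hp θ hθ1 with h8 | h8
        · refine hU _ h8 _ hq ?_
          have := hd 1 (Or.inl rfl)
          rwa [one_mul] at this
        · exact hU _ h8 _ hq (hd (-1) (Or.inr rfl))
      -- a third root of unity
      obtain ⟨ζ, hζ⟩ : ∃ ζ : ℂ, ζ = (-1 + Complex.I * Real.sqrt 3) / 2 := ⟨_, rfl⟩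
      have hζ1 : ‖ζ‖ = 1 := by
        have h8 : ζ = -((1 - Complex.I * Real.sqrt 3) / 2) := by rw [hζ]; ring
        have : ‖(2 : ℂ)‖ = 2 := by norm_num
        rw [h8, norm_neg, norm_div, hI', this]; norm_num
      have hζ3 : ζ * ζ * ζ = 1 := by
        rw [hζ]
        have hI2 := Complex.I_mul_I
        have h9 : (Complex.I * Real.sqrt 3) * (Complex.I * Real.sqrt 3) = -3 := by
          linear_combination (Real.sqrt 3 * Real.sqrt 3 : ℂ) * hI2 - h33
        linear_combination (1 / 8 * (-3 + Complex.I * Real.sqrt 3)) * h9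
      have hζf : Free R (1 / 2) ζ := hforb.free hρ.le (by
        have h8 : 1 - ζ = -(Real.sqrt 3 * Complex.I) * ((1 + Complex.I * Real.sqrt 3) / 2) := by
          rw [hζ]
          have hI2 := Complex.I_mul_I
          linear_combination (1 / 2 : ℂ) * Complex.I * Complex.I * h33 + (3 / 2 : ℂ) * hI2
        have : ‖(2 : ℂ)‖ = 2 := by norm_num
        rw [h8, norm_mul, norm_neg, norm_mul, Complex.norm_I, Complex.norm_real,
          Real.norm_of_nonneg h3.le, norm_div, hI, this]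
        ring)
      have hoζ := hcγ.odd (by rw [norm_neg, norm_one]) hζ1 hζf
      have ho3 := (hoζ.mul hζ1 hoζ).mul_odd hζ1 hoζ
      rw [hζ3] at ho3
      obtain ⟨p, hp⟩ := hne
      have := ho3 p hp 1 norm_one
      rw [one_mul] at this
      exact iff_not_self this
  · refine main_lemma hρ hU hne hγ hcγ (by rw [norm_mul, hγ, one_mul]) (hoγ.mul hγ hoγ) hg ?_
    have h4 : ‖1 - γ * γ‖ ≤ 2 := (norm_sub_le _ _).trans (by
      rw [norm_one, norm_mul, hγ]; norm_num)
    linarith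

/-- Region 1 -/
theorem reg1 (hU : Forb R 1) (hne : R.Nonempty) (h : Cfg R ρ₁ ρ₂ γ) (h1 : 1 / 2 ≤ ρ₁)
    (h2 : 1 / 2 ≤ ρ₂) : False := by
  rcases h1.lt_or_eq with h3 | h3
  · exact reg1a hU hne h h3 h2
  rcases h2.lt_or_eq with h4 | h4
  · exact reg1a hU hne h.symm h4 h1
  rw [← h3, ← h4] at h
  exact reg1b hU hne h

end Pool.Agent.H18.ER
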