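import Pool.Agent.H18.ER.Reg

/-!
# MP_024b85_co: the pairs of radii, second region
-/

set_option autoImplicit false

namespace Pool.Agent.H18.ER

open ComplexConjugate

variable {R : Set ℂ} {ρ ρ₁ ρ₂ : ℝ} {γ : ℂ}

lemma norm_one_sub_le {g : ℂ} (hg : ‖g‖ = 1) : ‖1 - g‖ ≤ 2 :=
  (norm_sub_le _ _).trans (by rw [norm_one, hg]; norm_num)

/-- the sixth root of unity -/
lemma exists_eps : ∃ ε : ℂ, ‖ε‖ = 1 ∧ ε + conj ε = 1 ∧ ε ≠ 1 := by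
  obtain ⟨t, ht, h1, -⟩ := chord (x := 1) (by norm_num) (by norm_num)
  have h2 := add_conj_of_chord ht h1
  refine ⟨t, ht, ?_, ?_⟩
  · rw [h2]; norm_num
  · rintro rfl
    rw [sub_self, norm_zero] at h1
    exact zero_ne_one h1

/-- a forbidden distance: the fourth vertex of two triangles -/
lemma Cfg.forb (h : Cfg R ρ₁ ρ₂ γ) {f : ℝ} (hF : Forb R f) {X : ℂ} (h1 : ‖X - ρ₁‖ = f)
    (h2 : ‖X - ρ₂ * γ‖ = f) : Forb R ‖X‖ := by
  intro p hp q hq hpq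
  obtain ⟨θ, hθ, hq'⟩ : ∃ θ : ℂ, ‖θ‖ = 1 ∧ q = p + X * θ := by
    by_cases hX : X = 0
    · refine ⟨1, norm_one, ?_⟩
      rw [hX, norm_zero, norm_eq_zero, sub_eq_zero] at hpq
      rw [hX, zero_mul, add_zero, hpq]
    · refine ⟨(q - p) / X, ?_, ?_⟩
      · rw [norm_div, norm_sub_rev, hpq, div_self (norm_ne_zero_iff.2 hX)]
      · rw [mul_div_cancel₀ _ hX]; ring
  rcases h.r1 p hp θ hθ with h3 | h3
  · refine hF _ hq _ h3 ?_
    have h4 : q - (p + ρ₁ * θ) = (X - ρ₁) * θ := by rw [hq']; ring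
    rw [h4, norm_mul, hθ, mul_one, h1]
  · refine hF _ hq _ h3 ?_
    have h4 : q - (p + ρ₂ * (γ * θ)) = (X - ρ₂ * γ) * θ := by rw [hq']; ring
    rw [h4, norm_mul, hθ, mul_one, h2]

/-- Region 2 -/
theorem reg2 (hU : Forb R 1) (hne : R.Nonempty) (h : Cfg R ρ₁ ρ₂ γ) (h0 : 0 < ρ₁)
    (h1 : ρ₁ ≤ 1) (h2 : 1 / 2 ≤ ρ₂) (h3 : |ρ₁ - ρ₂| ≤ 1) (h4 : 1 ≤ ρ₁ + ρ₂) : False := by
  have hγ := h.unit
  obtain ⟨w, hw, hw1, hw2⟩ := tri h0 (by linarith : 0 < ρ₂) h3 h4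
  obtain ⟨s, hs, -, hsf⟩ := exists_free hU h2
  have hc := h.cov hs hsf
  obtain ⟨e1, e2⟩ := h.even hU hw hw1 hw2
  have hbd : ∀ g : ℂ, ‖g‖ = 1 → ρ₁ * ‖1 - g‖ ≤ 2 := by
    intro g hg
    have := norm_one_sub_le hg
    nlinarith [norm_nonneg (1 - g)]
  have n1 : ‖conj γ * w‖ = 1 := by rw [norm_mul, norm_conj_eq hγ, hw, one_mul]
  have n2 : ‖γ * w‖ = 1 := by rw [norm_mul, hγ, hw, one_mul]
  by_cases g1 : conj γ * w = 1
  · by_cases g2 : γ * w = 1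
    · have hwγ : w = γ := by
        have := mul_conj_unit hγ
        linear_combination γ * g1 - w * this
      have hγγ : γ * γ = 1 := by rw [hwγ] at g2; exact g2
      have hcγ : conj γ = γ := by
        have := mul_conj_unit hγ
        linear_combination γ * this - conj γ * hγγ
      rw [hwγ] at hw1
      obtain ⟨ε, hε, hε1, hε2⟩ := exists_eps
      have hεε := mul_conj_unit hε
      have hε' : ε * ε = ε - 1 := by linear_combination ε * hε1 - hεε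
      have hcε : conj ε = 1 - ε := by linear_combination hε1
      -- the point `X`
      have hX1 : ‖(ρ₁ * conj ε + ρ₂ * γ * ε : ℂ) - ρ₁‖ = 1 := by
        have h5 : (ρ₁ * conj ε + ρ₂ * γ * ε : ℂ) - ρ₁ = -(((ρ₁ : ℂ) - γ * ρ₂) * ε) := by
          rw [hcε]; ring
        rw [h5, norm_neg, norm_mul, hw1, hε, one_mul]
      have hX2 : ‖(ρ₁ * conj ε + ρ₂ * γ * ε : ℂ) - ρ₂ * γ‖ = 1 := by
        have h5 : (ρ₁ * conj ε + ρ₂ * γ * ε : ℂ) - ρ₂ * γ = ((ρ₁ : ℂ) - γ * ρ₂) * conj ε := by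
          rw [hcε]; ring
        rw [h5, norm_mul, hw1, norm_conj_eq hε, one_mul]
      have hF := h.forb hU hX1 hX2
      have hXn : ‖(ρ₁ * conj ε + ρ₂ * γ * ε : ℂ)‖ = ‖(ρ₁ : ℂ) - conj (γ * ε) * ρ₂‖ := by
        have h5 : (ρ₁ : ℂ) - conj (γ * ε) * ρ₂ = (ρ₁ * conj ε + ρ₂ * γ * ε) * ε := by
          rw [map_mul, hcγ, hcε]
          linear_combination (ρ₁ - ρ₂ * γ : ℂ) * hε'
        rw [h5, norm_mul, hε, mul_one]
      have hXn' : ‖(ρ₁ * conj ε + ρ₂ * γ * ε : ℂ)‖ = ‖(ρ₁ : ℂ) - (γ * ε) * ρ₂‖ := by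
        have h5 : (ρ₁ : ℂ) - (γ * ε) * ρ₂ = conj ((ρ₁ : ℂ) - conj (γ * ε) * ρ₂) := by
          rw [map_sub, map_mul, Complex.conj_conj, Complex.conj_ofReal, Complex.conj_ofReal]
        rw [hXn, h5, Complex.norm_conj]
      have nγε : ‖γ * ε‖ = 1 := by rw [norm_mul, hγ, hε, one_mul]
      have e3 := (h.even hF nγε hXn'.symm hXn.symm).1
      have h5 : conj γ * (γ * ε) = ε := by rw [← mul_assoc, conj_mul_unit hγ, one_mul]
      rw [h5] at e3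
      exact main_lemma h0 hU hne hs hc hε e3 hε2 (hbd ε hε)
    · exact main_lemma h0 hU hne hs hc n2 e2 g2 (hbd _ n2)
  · exact main_lemma h0 hU hne hs hc n1 e1 g1 (hbd _ n1)

/-- both regions -/
theorem regions (hU : Forb R 1) (hne : R.Nonempty) (h : Cfg R ρ₁ ρ₂ γ) (h1 : 0 < ρ₁)
    (h2 : 0 < ρ₂) (h3 : (1 / 2 ≤ ρ₁ ∧ 1 / 2 ≤ ρ₂) ∨ (|ρ₁ - ρ₂| ≤ 1 ∧ 1 ≤ ρ₁ + ρ₂)) : False := by
  by_cases h4 : 1 / 2 ≤ ρ₁ ∧ 1 / 2 ≤ ρ₂
  · exact reg1 hU hne h h4.1 h4.2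
  · obtain ⟨h5, h6⟩ := h3.resolve_left h4
    by_cases h7 : ρ₁ < 1 / 2
    · exact reg2 hU hne h h1 (by linarith) (by linarith) h5 h6
    · have h8 : ρ₂ < 1 / 2 := by
        by_contra h9
        exact h4 ⟨by linarith, by linarith⟩
      exact reg2 hU hne h.symm h2 (by linarith) (by linarith) (by rw [abs_sub_comm]; exact h5)
        (by linarith)

end Pool.Agent.H18.ER
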